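import Pool.Agent.Q196.BergerInt

/-!
# The fields `a₁E₁ + a₂E₂` do not minimise the energy on all Berger spheres with `μ > 1`

The definitions (Berger metric `gB`, fields, Levi-Civita connection, unit fields, energy) are in
`Pool.Agent.Q196.BergerDefs`.

For every `μ > ((3 + √57)/8)² = (33 + 3√57)/32 ≈ 1.74` there is a unit vector field on
`(S^3, g_μ)` whose energy is strictly smaller than the common energy of all the fields
`a₁E₁ + a₂E₂`, `a₁² + a₂² = 1`. The competitor is the Hopf field of the other orientation,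
`R x = x i`, corrected along `H` to have unit `g_μ`-length:
`V(x) = R x + (1/√μ - 1) ⟨R x, H⟩ H`.
-/

open MeasureTheory Metric
open Q196.Berger

namespace Pool.Agent.Results.MP_627409_gt.BergerEnergy

/-- Every Berger metric has a Levi-Civita connection, and for every `μ` above the explicit
constant `((3 + √57)/8)² > 1` (and with respect to any `D` satisfying the axioms of the
Levi-Civita connection) some unit vector field has energy strictly below
`(3/2 + μ + 2(1-μ)/μ) vol(S^3, g_μ)`, which is the energy of all fields `a₁E₁ + a₂E₂`. -/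
theorem result :
    (∀ μ : ℝ, 0 < μ → ∃ D, IsLeviCivita μ D) ∧
    ∀ μ : ℝ, ((3 + √57) / 8) ^ 2 < μ → 1 < μ ∧ ∀ D, IsLeviCivita μ D →
      (∃ V, IsUnitField μ V ∧ Integrable (fun x : S3 => normSqD μ D V x) (measB μ) ∧
        energy μ D V < (3 / 2 + μ + 2 * ((1 - μ) / μ)) * volB μ) ∧
      ∀ a₁ a₂ : ℝ, a₁ ^ 2 + a₂ ^ 2 = 1 →
        IsUnitField μ (fun x => a₁ • J1 x + a₂ • J2 x) ∧
        energy μ D (fun x => a₁ • J1 x + a₂ • J2 x)
          = (3 / 2 + μ + 2 * ((1 - μ) / μ)) * volB μ :=
  ⟨fun μ _ => ⟨Dstd μ, isLeviCivita_Dstd μ⟩, main⟩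

end Pool.Agent.Results.MP_627409_gt.BergerEnergy
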